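import Mathlib
import Pool.Agent.Y304.Gav.Coord

set_option autoImplicit false

open scoped ContDiff Matrix

namespace Pool.Agent.Results.MP_d68153_an.HelicalGavrilovFlow

/-- Three-space. -/
abbrev Space : Type := Fin 3 → ℝ

/-- The partial derivative `∂f/∂x_j`. -/
noncomputable def pd (j : Fin 3) (f : Space → ℝ) (x : Space) : ℝ := fderiv ℝ f x (Pi.single j 1)

/-- `(u, p)` is a Gavrilov flow on the open set `U`: `u` and `p` are smooth on `U` and
`(u·∇)u + ∇p = 0`, `∇·u = 0`, `u·∇p = 0` there. -/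
structure IsGavrilovFlow (U : Set Space) (u : Space → Space) (p : Space → ℝ) : Prop where
  smooth_velocity : ContDiffOn ℝ ∞ u U
  smooth_pressure : ContDiffOn ℝ ∞ p U
  momentum : ∀ x ∈ U, ∀ i, ∑ j, u x j * pd j (fun y => u y i) x + pd i p x = 0
  divergence_free : ∀ x ∈ U, ∑ j, pd j (fun y => u y j) x = 0
  orthogonal : ∀ x ∈ U, ∑ j, u x j * pd j p x = 0

/-- `(u, p)` is axisymmetric on `V`: for some line, through the point `c` with direction `d`, every
rotation `x ↦ c + A (x - c)` about it (`A` orthogonal, `det A = 1`, `A d = d`) and every `x ∈ V`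
which it maps into `V` satisfy `p (c + A (x - c)) = p x` and `u (c + A (x - c)) = A (u x)`. -/
def IsAxisymmetric (V : Set Space) (u : Space → Space) (p : Space → ℝ) : Prop :=
  ∃ c d : Space, d ≠ 0 ∧ ∀ A : Matrix (Fin 3) (Fin 3) ℝ, A * Aᵀ = 1 → A.det = 1 → A *ᵥ d = d →
    ∀ x ∈ V, c + A *ᵥ (x - c) ∈ V → p (c + A *ᵥ (x - c)) = p x ∧ u (c + A *ᵥ (x - c)) = A *ᵥ u x

open Pool.Agent.Y304.Gav in
/-- **There is a Gavrilov flow without critical points of the pressure which is not axisymmetric**,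
not even on any nonempty open subset of its connected open domain. -/
theorem result : ∃ (U : Set Space) (u : Space → Space) (p : Space → ℝ),
    IsOpen U ∧ IsConnected U ∧ IsGavrilovFlow U u p ∧ (∀ x ∈ U, ∃ j, pd j p x ≠ 0) ∧
      ∀ V ⊆ U, IsOpen V → V.Nonempty → ¬ IsAxisymmetric V u p := by
  obtain ⟨s⟩ := exists_setup
  have hpd : ∀ (f : E3 → ℝ) (L : E3 →L[ℝ] ℝ) (x : Space), HasFDerivAt f L (ee x) → ∀ j,
      pd j (fun y => f (ee y)) x = L (EuclideanSpace.single j 1) := by
    intro f L x hf j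
    have h1 : HasFDerivAt (fun y : Space => f (ee y)) (L ∘L (ee : Space →L[ℝ] E3)) x :=
      hf.comp x ee.hasFDerivAt
    rw [pd, h1.fderiv, ← ee_single]
    rfl
  have hu : ∀ x : Space, ee x ∈ s.U → ∀ i, HasFDerivAt (fun y : E3 => s.u y i)
      ((co i) ∘L (s.du (ee x))) (ee x) := fun x hx i =>
    (co i).hasFDerivAt.comp (ee x) (s.hasFDerivAt_u hx)
  have hud : ∀ x : Space, ee x ∈ s.U → ∀ i j, pd j (fun y => s.u (ee y) i) x =
      fderiv ℝ s.u (ee x) (EuclideanSpace.single j 1) i := by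
    intro x hx i j
    rw [hpd _ _ x (hu x hx i) j, (s.hasFDerivAt_u hx).fderiv]
    rfl
  have hpp : ∀ x : Space, ee x ∈ s.U → ∀ j, pd j (fun y => s.p (ee y)) x = gradient s.p (ee x) j := by
    intro x hx j
    rw [hpd _ _ x (s.hasFDerivAt_p hx) j, s.gradient_p hx]
    fin_cases j <;> simp
  refine ⟨ee ⁻¹' s.U, fun x i => s.u (ee x) i, fun x => s.p (ee x),
    Metric.isOpen_ball.preimage ee.continuous, ⟨⟨ee.symm base, ?_⟩, ?_⟩, ⟨?_, ?_, ?_, ?_, ?_⟩, ?_, ?_⟩
  · simp only [Set.mem_preimage, ContinuousLinearEquiv.apply_symm_apply]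
    exact Metric.mem_ball_self s.r_pos
  · exact ((convex_ball base s.r).linear_preimage (ee : Space →L[ℝ] E3).toLinearMap).isPreconnected
  · have h1 : ContDiffOn ℝ ∞ (fun x : Space => s.u (ee x)) (ee ⁻¹' s.U) :=
      s.contDiffOn_u.comp ee.contDiff.contDiffOn (fun x hx => hx)
    exact ee.symm.contDiff.comp_contDiffOn h1
  · exact s.contDiffOn_p.comp ee.contDiff.contDiffOn (fun x hx => hx)
  · intro x hx i
    have h := congrArg (fun v : E3 => v i) (s.euler hx)
    simp only [hud x hx, hpp x hx]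
    rw [← map_eq_sum]
    exact h
  · intro x hx
    simp only [hud x hx]
    exact s.divfree hx
  · intro x hx
    simp only [hpp x hx]
    rw [← inner_eq]
    exact s.orthogonal hx
  · intro x hx
    by_contra hcon
    push Not at hcon
    apply s.grad_ne hx
    ext j
    rw [← hpp x hx j, hcon j]
    simp
  · rintro V hV hVo ⟨x₀, hx₀⟩ ⟨c, d, hd, H⟩
    have hd' : ee d ≠ 0 := by
      intro h
      exact hd ((map_eq_zero_iff ee ee.injective).1 h)
    obtain ⟨n₁, n₂, h₁, h₂, h₁₂, hd₁, hd₂⟩ := exists_pair hd'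
    refine s.not_rot_invariant (V := ee.symm ⁻¹' V) (fun y hy => ?_)
      (hVo.preimage ee.symm.continuous) ⟨ee x₀, ?_⟩ (ee c) n₁ n₂ h₁ h₂ h₁₂ ?_
    · have := hV hy
      rwa [Set.mem_preimage, ee.apply_symm_apply] at this
    · rw [Set.mem_preimage, ee.symm_apply_apply]
      exact hx₀
    · intro t y hy hy'
      -- the matrix of the rotation
      have hin : ∀ v w : E3, inner ℝ v w = (ee.symm v) ⬝ᵥ (ee.symm w) := inner_eq
      have hnn : ∀ v : E3, ‖v‖ = 1 → (ee.symm v) ⬝ᵥ (ee.symm v) = 1 := by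
        intro v hv
        rw [← hin, real_inner_self_eq_norm_sq, hv]
        norm_num
      have haa := hnn _ h₁
      have hbb := hnn _ (norm_nn h₁ h₂ h₁₂ t)
      have had : (ee.symm n₁) ⬝ᵥ d = 0 := by
        have := hin n₁ (ee d)
        rw [hd₁, ee.symm_apply_apply] at this
        exact this.symm
      have hbd : (ee.symm (nn n₁ n₂ t)) ⬝ᵥ d = 0 := by
        have := hin (nn n₁ n₂ t) (ee d)
        rw [nn, inner_add_left, real_inner_smul_left, real_inner_smul_left, hd₁, hd₂,
          ee.symm_apply_apply] at this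
        rw [nn, ← this]
        ring
      set a := ee.symm n₁ with ha
      set b := ee.symm (nn n₁ n₂ t) with hb
      have hrot : ∀ v : Space, (Hm b * Hm a) *ᵥ v = ee.symm (rotL n₁ n₂ t (ee v)) := by
        intro v
        rw [rotL_apply h₁ h₂ h₁₂, ← Matrix.mulVec_mulVec, Hm_mulVec, Hm_mulVec, hin, hin]
        simp only [map_sub, map_smul, ContinuousLinearEquiv.symm_apply_apply]
        rfl
      have e1 : c + (Hm b * Hm a) *ᵥ (ee.symm y - c) = ee.symm (rotA (ee c) n₁ n₂ t y) := by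
        rw [hrot, rotA_apply, map_sub ee, ee.apply_symm_apply, map_add ee.symm, ee.symm_apply_apply]
      have hA := H (Hm b * Hm a) ?_ ?_ ?_ (ee.symm y) hy ?_
      · have h1 := hA.1
        rw [e1] at h1
        simpa only [ee.apply_symm_apply] using h1
      · rw [Matrix.transpose_mul, Hm_transpose, Hm_transpose, Matrix.mul_assoc,
          ← Matrix.mul_assoc (Hm a) (Hm a), Hm_mul_self a haa, Matrix.one_mul, Hm_mul_self b hbb]
      · rw [Matrix.det_mul, Hm_det a haa, Hm_det b hbb]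
        norm_num
      · have e2 : Hm a *ᵥ d = d := by rw [Hm_mulVec, had, mul_zero, zero_smul, sub_zero]
        rw [← Matrix.mulVec_mulVec, e2, Hm_mulVec, hbd, mul_zero, zero_smul, sub_zero]
      · rw [e1]
        exact hy'

end Pool.Agent.Results.MP_d68153_an.HelicalGavrilovFlow
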